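import Mathlib
import Pool.Agent.Lib.MP_add94d_co.Base
import Pool.Agent.Lib.MP_add94d_co.Mid
import Pool.Agent.Lib.MP_add94d_co.Asym

/-!
MP_add94d_co: `f^{(4)}_{s,s+1}(n) ≥ c (log log n / log log log n)^{k/(k+1)}` for all `s ≥ 3^k + 1`.
-/

namespace Pool.Agent.Results.MP_add94d_co.LowerBound

open Finset MPadd94d

/-- the finite form -/
theorem finite_main {V : Type*} [DecidableEq V] (H : Finset V → Prop) (k s l : ℕ) (hk : 1 ≤ k)
    (hs : 3 ^ k + 1 ≤ s) (hl : 1 ≤ l) (V₀ : Finset V) (hfree : KFree 4 (s + 1) H V₀)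
    (hV : rho l (l ^ k) k ≤ V₀.card) :
    ∃ A ⊆ V₀, A.card = l ^ k ∧ KFree 4 s H A := by
  classical
  by_contra hno
  have h3 : 3 ≤ 3 ^ k := by
    calc 3 = 3 ^ 1 := by norm_num
      _ ≤ 3 ^ k := Nat.pow_le_pow_right (by norm_num) hk
  have hI : ∀ X ⊆ V₀, RR l (l ^ k) ≤ X.card → ∃ A ⊆ X, A.card = l ∧ Indep 4 H A := by
    intro X hX hXc
    have hf : KFree 4 (s + 1) H X := fun Q hQ hc => hfree Q (hQ.trans hX) hc
    rcases indep_or H s l (l ^ k) (by omega) hl X hf hXc with h | ⟨A, hA, hAc, hAf⟩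
    · exact h
    · exact absurd ⟨A, hA.trans hX, hAc, hAf⟩ hno
  obtain ⟨A, hA, hN⟩ := NZ_exists H l (l ^ k) hl V₀ hI k V₀ subset_rfl hV
  refine hno ⟨A, hA, NZ_card H l k A hN, ?_⟩
  intro Q hQ hQc hcl
  have := NZ_clique H l k A hN Q hQ hcl
  omega

/-- For every `k ≥ 1` there is `c > 0` such that for all large `n` and ALL `s ≥ 3^k + 1`:
`f^{(4)}_{s,s+1}(n) ≥ c (log log n / log log log n)^{k/(k+1)}`. -/
theorem result (k : ℕ) (hk : 1 ≤ k) : ∃ c : ℝ, 0 < c ∧ ∃ n₀ : ℕ, ∀ n : ℕ, n₀ ≤ n →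
    ∀ s : ℕ, 3 ^ k + 1 ≤ s →
      c * (Real.log (Real.log n) / Real.log (Real.log (Real.log n))) ^ ((k : ℝ) / (k + 1)) ≤
        (erdosRogers 4 s (s + 1) n : ℝ) := by
  obtain ⟨C, hC, hrho⟩ := rho_bound k hk
  obtain ⟨c, hc, n₀, hn⟩ := asymp k hk C hC
  refine ⟨c, hc, n₀, fun n hn0 s hs => ?_⟩
  obtain ⟨l, hl, hle, hgrow⟩ := hn n hn0
  have h3 : 3 ≤ 3 ^ k := by
    calc 3 = 3 ^ 1 := by norm_num
      _ ≤ 3 ^ k := Nat.pow_le_pow_right (by norm_num) hk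
  have hprop : ERProp 4 s (s + 1) n (l ^ k) := by
    intro H hH hfree
    obtain ⟨A, _, hA, hA'⟩ := finite_main (fun e => e ∈ H) k s l hk hs (by omega) univ hfree
      (by simpa using (hrho l hl).trans hle)
    exact ⟨A, hA, hA'⟩
  have := le_erdosRogers 4 s (s + 1) n (l ^ k) (by norm_num) (by omega) hprop
  calc _ ≤ (l : ℝ) ^ k := hgrow
    _ = ((l ^ k : ℕ) : ℝ) := by push_cast; ring
    _ ≤ _ := by exact_mod_cast this

end Pool.Agent.Results.MP_add94d_co.LowerBound
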