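import Pool.Agent.Lib.MP_add94d_co.Barrier.Final

/-!
MP_add94d_co: the bound asked for in Q1 cannot be obtained from `4`-graphs whose edges are determined
by the branching words of a binary tree on the vertices (the leaves), whatever the tree is.
-/

set_option autoImplicit false

namespace Pool.Agent.Results.MP_add94d_co.TreeBarrier

open Pool.TreeBar

/-- Among the `4`-subsets of the set `X` of binary words, membership in `H` depends only on the set of
branching words (the longest common prefixes of pairs of distinct elements). -/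
def TreeDetermined (X : Finset (List Bool)) (H : Set (Finset (List Bool))) : Prop :=
  ∀ V V' : Finset (List Bool), V ⊆ X → V' ⊆ X → V.card = 4 → V'.card = 4 → branch V = branch V' →
    (V ∈ H ↔ V' ∈ H)

/-- Let `s ≥ 5` and `0 < c < 1 / (4 (s - 2))`. There is `n₀` such that for every set `X` of `n ≥ n₀`
binary words of the same length `N` (arbitrary) and every `4`-graph `H` on `X` whose edges are
determined by the branching words: if `H` contains no `K_{s+1}`, then at least
`exp ((log log n) ^ c)` vertices form a set without `K_s`. -/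
theorem result (s : ℕ) (hs : 5 ≤ s) (c : ℝ) (hc : 0 < c) (hc1 : c * (4 * (s - 2)) < 1) :
    ∃ n₀ : ℕ, ∀ (N : ℕ) (X : Finset (List Bool)), (∀ v ∈ X, v.length = N) → n₀ ≤ X.card →
      ∀ H : Set (Finset (List Bool)), TreeDetermined X H →
      (¬ ∃ Q : Finset (List Bool), Q ⊆ X ∧ Q.card = s + 1 ∧ IsClique H Q) →
      ∃ S : Finset (List Bool), S ⊆ X ∧
        Real.exp ((Real.log (Real.log (X.card : ℝ))) ^ c) ≤ (S.card : ℝ) ∧
        ¬ ∃ Q : Finset (List Bool), Q ⊆ S ∧ Q.card = s ∧ IsClique H Q := by
  obtain ⟨n₀, hn₀⟩ := numeric s hs c hc hc1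
  refine ⟨n₀, fun N X hN hX H hH hfree => ?_⟩
  obtain ⟨j, hj, hj2⟩ := hn₀ X.card hX
  obtain ⟨S, h1, h2, h3⟩ := main (j := j) hN (fun V V' h h' => hH V V' h h') hs (fun h => hfree h) hj2
  refine ⟨S, h1, hj.trans ?_, h3⟩
  exact_mod_cast h2

end Pool.Agent.Results.MP_add94d_co.TreeBarrier
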